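import Pool.Agent.H421Z.TEmb.Main

namespace Pool.Agent.Results.MP_4f6efa_gt.NotTExtral

open Pool.Agent.H421Z.TEmb

universe u

/-- For every uncountable index set `ι` (in particular `ι = ω₁`) the Cantor cube `{0,1}^ι` is not
t-extral: some Tychonoff space contains a closed copy of it that is not t-embedded. -/
theorem result (ι : Type u) [Uncountable ι] :
    ∃ (Y : Type u) (_ : TopologicalSpace Y) (_ : T35Space Y) (K : Set Y),
      IsClosed K ∧ Nonempty (K ≃ₜ (ι → Bool)) ∧ ¬ TEmbedded K := by
  classical
  let e : (ι → Bool) → (ι → unitInterval) := fun x i => if x i then 1 else 0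
  have hc : Continuous e := by
    refine continuous_pi fun i => ?_
    exact (continuous_of_discreteTopology (f := fun b : Bool =>
      if b then (1 : unitInterval) else 0)).comp (continuous_apply i)
  have hi : Function.Injective e := by
    intro x y h
    funext i
    have := congrFun h i
    cases hx : x i <;> cases hy : y i <;> simp_all [e]
  have hr : Set.range e = cantorCube ι := by
    ext z
    constructor
    · rintro ⟨x, rfl⟩ i
      cases hx : x i <;> simp [e, hx]
    · intro hz
      refine ⟨fun i => decide (z i = 1), funext fun i => ?_⟩
      rcases hz i with h | h <;> simp [e, h]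
  have he := hc.isClosedEmbedding hi
  refine ⟨ι → unitInterval, inferInstance, inferInstance, cantorCube ι, hr ▸ he.isClosed_range,
    ⟨((Homeomorph.setCongr hr).symm).trans he.isEmbedding.toHomeomorph.symm⟩, main⟩

end Pool.Agent.Results.MP_4f6efa_gt.NotTExtral
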